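import Mathlib

/-!
# MP_a51b5f_co: k-dominating independent sets in incidence graphs of projective planes

For every `k ≥ 1` the number of `k`-DISes of the incidence graph of `PG(2, 2^h)` is not bounded by
a polynomial in the number of vertices: the Denniston arcs of all additive subgroups of a suitable
order give superpolynomially many of them.
-/

namespace Pool.Agent.Results.MP_a51b5f_co.ManyKDIS

open Configuration

/-- `S` is a `k`-dominating independent set of `G`. -/
def IsKDIS {V : Type*} (G : SimpleGraph V) (k : ℕ) (S : Set V) : Prop :=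
  (∀ u ∈ S, ∀ v ∈ S, ¬ G.Adj u v) ∧ ∀ v, v ∉ S → k ≤ {u | u ∈ S ∧ G.Adj v u}.ncard

/-- The incidence graph. -/
def incGraph (P L : Type) [Membership P L] : SimpleGraph (P ⊕ L) where
  Adj u v := match u, v with
    | Sum.inl p, Sum.inr l => p ∈ l
    | Sum.inr l, Sum.inl p => p ∈ l
    | Sum.inl _, Sum.inl _ => False
    | Sum.inr _, Sum.inr _ => False
  symm := ⟨by
    rintro (p | l) (p' | l') h
    · exact h
    · exact h
    · exact h
    · exact h⟩
  loopless := ⟨by
    rintro (p | l) h
    · exact h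
    · exact h⟩

/-! ### Counting in projective planes -/

section Count

variable {P L : Type} [Membership P L] [ProjectivePlane P L] [Fintype P] [Fintype L]

omit [Fintype P] in
open Classical in
theorem sum_lines (p : P) (E : Finset P) (hp : p ∉ E) :
    ∑ l ∈ (Finset.univ.filter (fun l : L => p ∈ l)), (E.filter (fun e => e ∈ l)).card = E.card := by
  let f : P → L := fun e => if h : p ≠ e then HasLines.mkLine h else Classical.choice
    ⟨(ProjectivePlane.exists_config (P := P) (L := L)).choose_spec.choose_spec.choose_spec.choose⟩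
  have hf : ∀ e ∈ E, p ∈ f e ∧ e ∈ f e := by
    intro e he
    have h : p ≠ e := by rintro rfl; exact hp he
    simp only [f, dif_pos h]
    exact HasLines.mkLine_ax h
  rw [Finset.card_eq_sum_card_fiberwise (f := f) (t := Finset.univ.filter (fun l : L => p ∈ l))
    (by intro e he; simpa using (hf e he).1)]
  apply Finset.sum_congr rfl
  intro l hl
  congr 1
  ext e
  simp only [Finset.mem_filter, Finset.mem_univ, true_and] at hl ⊢
  constructor
  · rintro ⟨he, hel⟩
    refine ⟨he, ?_⟩
    have h : p ≠ e := by rintro rfl; exact hp he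
    have := hf e he
    exact (Nondegenerate.eq_or_eq this.1 this.2 hl hel).resolve_left h
  · rintro ⟨he, rfl⟩
    exact ⟨he, (hf e he).2⟩

open Classical in
theorem card_lines_through (p : P) :
    (Finset.univ.filter (fun l : L => p ∈ l)).card = ProjectivePlane.order P L + 1 := by
  rw [← ProjectivePlane.lineCount_eq (L := L) p]
  unfold lineCount
  rw [Nat.card_eq_fintype_card, Fintype.card_subtype]

open Classical in
/-- A set meeting every line in `0` or `t` points: each outside point lies on `q / t` external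
lines. -/
theorem external (D : Finset P) (t : ℕ) (ht : 1 ≤ t) (hne : D.Nonempty)
    (hD : ∀ l : L, (D.filter (fun e => e ∈ l)).card = 0 ∨ (D.filter (fun e => e ∈ l)).card = t)
    (p : P) (hp : p ∉ D) :
    (Finset.univ.filter (fun l : L => p ∈ l ∧ (D.filter (fun e => e ∈ l)).card = 0)).card * t =
      ProjectivePlane.order P L := by
  obtain ⟨d, hd⟩ := hne
  -- the cardinality of `D`
  have h1 := sum_lines (L := L) d (D.erase d) (by simp)
  have h2 : ∀ l ∈ (Finset.univ.filter (fun l : L => d ∈ l)),
      ((D.erase d).filter (fun e => e ∈ l)).card = t - 1 := by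
    intro l hl
    simp only [Finset.mem_filter, Finset.mem_univ, true_and] at hl
    have h3 : (D.erase d).filter (fun e => e ∈ l) = (D.filter (fun e => e ∈ l)).erase d := by
      ext e; simp only [Finset.mem_filter, Finset.mem_erase]; tauto
    have hdl : d ∈ D.filter (fun e => e ∈ l) := Finset.mem_filter.2 ⟨hd, hl⟩
    rw [h3, Finset.card_erase_of_mem hdl]
    rcases hD l with h | h
    · exact absurd hdl (by rw [Finset.card_eq_zero.1 h]; simp)
    · rw [h]
  rw [Finset.sum_congr rfl h2, Finset.sum_const, card_lines_through, smul_eq_mul,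
    Finset.card_erase_of_mem hd] at h1
  have hDpos : 0 < D.card := Finset.card_pos.2 ⟨d, hd⟩
  -- the lines through `p`
  have h4 := sum_lines (L := L) p D hp
  have h5 : ∑ l ∈ (Finset.univ.filter (fun l : L => p ∈ l)), (D.filter (fun e => e ∈ l)).card =
      (Finset.univ.filter (fun l : L => p ∈ l ∧ (D.filter (fun e => e ∈ l)).card ≠ 0)).card * t := by
    rw [← Finset.sum_filter_add_sum_filter_not (Finset.univ.filter (fun l : L => p ∈ l))
      (fun l => (D.filter (fun e => e ∈ l)).card = 0)]
    rw [Finset.sum_eq_zero (s := (Finset.univ.filter (fun l : L => p ∈ l)).filter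
      (fun l => (D.filter (fun e => e ∈ l)).card = 0)) (by
        intro l hl; exact (Finset.mem_filter.1 hl).2), zero_add]
    rw [Finset.sum_congr rfl (g := fun _ => t) (by
        intro l hl
        exact (hD l).resolve_left (Finset.mem_filter.1 hl).2), Finset.sum_const, smul_eq_mul,
      Finset.filter_filter]
  rw [h5] at h4
  have h6 := card_lines_through (P := P) (L := L) p
  have h7 : (Finset.univ.filter (fun l : L => p ∈ l)).card =
      (Finset.univ.filter (fun l : L => p ∈ l ∧ (D.filter (fun e => e ∈ l)).card = 0)).card +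
      (Finset.univ.filter (fun l : L => p ∈ l ∧ (D.filter (fun e => e ∈ l)).card ≠ 0)).card := by
    rw [← Finset.card_filter_add_card_filter_not (s := Finset.univ.filter (fun l : L => p ∈ l))
      (fun l => (D.filter (fun e => e ∈ l)).card = 0), Finset.filter_filter, Finset.filter_filter]
  set x := (Finset.univ.filter (fun l : L => p ∈ l ∧ (D.filter (fun e => e ∈ l)).card = 0)).card
  set y := (Finset.univ.filter (fun l : L => p ∈ l ∧ (D.filter (fun e => e ∈ l)).card ≠ 0)).card
  set q := ProjectivePlane.order P L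
  obtain ⟨t', rfl⟩ : ∃ t', t = t' + 1 := ⟨t - 1, by omega⟩
  have h8 : x + y = q + 1 := by omega
  have h9 : (q + 1) * t' + 1 = D.card := by
    have : t' + 1 - 1 = t' := by omega
    rw [this] at h1
    omega
  have h10 : (x + y) * (t' + 1) = (q + 1) * (t' + 1) := by rw [h8]
  have h11 : (x + y) * (t' + 1) = x * (t' + 1) + y * (t' + 1) := by ring
  have h12 : (q + 1) * (t' + 1) = (q + 1) * t' + q + 1 := by ring
  omega

end Count

/-! ### Denniston's counting lemma -/

section Field

variable {K : Type} [Field K] [Fintype K] [CharP K 2]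

omit [Fintype K] in
theorem two_zero : (2 : K) = 0 := CharTwo.two_eq_zero

omit [Fintype K] in
theorem add_self_zero (x : K) : x + x = 0 := CharTwo.add_self_eq_zero x

theorem sq_bij (u : K) (hu : u ≠ 0) : Function.Bijective (fun x : K => u * x ^ 2) := by
  apply Function.Injective.bijective_of_finite
  intro x y h
  have h1 : x ^ 2 = y ^ 2 := mul_left_cancel₀ hu h
  have h2 : (x + y) ^ 2 = 0 := by
    have : (x + y) ^ 2 = x ^ 2 + y ^ 2 + 2 * (x * y) := by ring
    rw [this, h1, two_zero, zero_mul, add_zero]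
    exact add_self_zero _
  have h3 : x + y = 0 := by simpa using h2
  have h4 : x = x + (y + y) := by rw [add_self_zero, add_zero]
  rw [h4, ← add_assoc, h3, zero_add]

/-- The additive part of a quadratic polynomial in characteristic two. -/
def quadHom (u v : K) : K →+ K where
  toFun x := u * x ^ 2 + v * x
  map_zero' := by simp
  map_add' x y := by
    have : u * (x + y) ^ 2 + v * (x + y) = u * x ^ 2 + v * x + (u * y ^ 2 + v * y) +
        2 * (u * (x * y)) := by ring
    rw [this, two_zero, zero_mul, add_zero]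

open Classical in
theorem fiber_card (u v : K) (hu : u ≠ 0) (hv : v ≠ 0) (b : K) (hb : b ∈ (quadHom u v).range) :
    (Finset.univ.filter (fun x => quadHom u v x = b)).card = 2 := by
  have h0 : (Finset.univ.filter (fun x => quadHom u v x = 0)).card = 2 := by
    have : (Finset.univ.filter (fun x => quadHom u v x = 0)) = {0, v / u} := by
      ext x
      simp only [Finset.mem_filter, Finset.mem_univ, true_and, Finset.mem_insert,
        Finset.mem_singleton]
      have e : quadHom u v x = u * (x * (x + v / u)) := by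
        show u * x ^ 2 + v * x = _
        field_simp
      rw [e]
      constructor
      · intro h
        rcases mul_eq_zero.1 h with h | h
        · exact absurd h hu
        · rcases mul_eq_zero.1 h with h | h
          · exact Or.inl h
          · right
            have h4 : x = x + (v / u + v / u) := by rw [add_self_zero, add_zero]
            rw [h4, ← add_assoc, h, zero_add]
      · rintro (rfl | rfl)
        · simp
        · rw [add_self_zero]; simp
    rw [this, Finset.card_pair]
    exact (div_ne_zero hv hu).symm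
  rw [← h0]
  exact AddMonoidHom.card_fiber_eq_of_mem_range (quadHom u v)
    (by simpa using hb) ⟨0, map_zero _⟩

theorem index_two (u v : K) (hu : u ≠ 0) (hv : v ≠ 0) : (quadHom u v).range.index = 2 := by
  classical
  have hker : Nat.card (quadHom u v).ker = 2 := by
    rw [← fiber_card u v hu hv 0 (zero_mem _), Nat.card_eq_fintype_card, Fintype.card_subtype]
    congr 1
    ext x
    simp [AddMonoidHom.mem_ker]
  have h1 := (quadHom u v).ker.card_mul_index
  rw [AddSubgroup.index_ker, hker] at h1
  have h2 := (quadHom u v).range.card_mul_index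
  have hpos : 0 < Nat.card (quadHom u v).range := Nat.card_pos
  have h3 : Nat.card (quadHom u v).range * (quadHom u v).range.index =
      Nat.card (quadHom u v).range * 2 := by rw [h2, ← h1, mul_comm]
  exact Nat.eq_of_mul_eq_mul_left hpos h3

open Classical in
theorem count (A : AddSubgroup K) (u v w : K) (hu : u ≠ 0)
    (h : (∀ x, u * x ^ 2 + v * x + w ≠ 0) ∨ (v = 0 ∧ w = 0)) :
    (Finset.univ.filter (fun x => u * x ^ 2 + v * x + w ∈ A)).card = 0 ∨
    (Finset.univ.filter (fun x => u * x ^ 2 + v * x + w ∈ A)).card = Nat.card A := by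
  have hAcard : Nat.card A = (Finset.univ.filter (fun a => a ∈ A)).card := by
    rw [Nat.card_eq_fintype_card, Fintype.card_subtype]
  rcases h with h | ⟨rfl, rfl⟩
  · have hv : v ≠ 0 := by
      rintro rfl
      obtain ⟨x, hx⟩ := (sq_bij u hu).2 w
      apply h x
      have hx' : u * x ^ 2 = w := hx
      rw [hx', zero_mul, add_zero, add_self_zero]
    by_cases hex : ∃ x0, u * x0 ^ 2 + v * x0 + w ∈ A
    · right
      obtain ⟨x0, hx0⟩ := hex
      set H := (quadHom u v).range with hH
      have hidx : H.index = 2 := index_two u v hu hv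
      have hw : w ∉ H := by
        rintro ⟨x, hx⟩
        apply h x
        have hx' : u * x ^ 2 + v * x = w := hx
        rw [hx', add_self_zero]
      let nn : K → ℕ := fun b => (Finset.univ.filter (fun x => quadHom u v x = b)).card
      have hn1 : ∀ b ∈ H, nn b = 2 := fun b hb => fiber_card u v hu hv b hb
      have hn0 : ∀ b, b ∉ H → nn b = 0 := by
        intro b hb
        rw [Finset.card_eq_zero, Finset.filter_eq_empty_iff]
        intro x _ hx
        exact hb ⟨x, hx⟩
      have hsum : ∀ b, nn b + nn (b + w) = 2 := by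
        intro b
        have hiff := AddSubgroup.add_mem_iff_of_index_two hidx (a := b) (b := w)
        by_cases hb : b ∈ H
        · have : b + w ∉ H := by rw [hiff]; tauto
          rw [hn1 b hb, hn0 _ this]
        · have : b + w ∈ H := by rw [hiff]; tauto
          rw [hn0 b hb, hn1 _ this]
      have hX : (Finset.univ.filter (fun x => u * x ^ 2 + v * x + w ∈ A)).card =
          ∑ a ∈ Finset.univ.filter (fun a => a ∈ A), nn (a + w) := by
        rw [Finset.card_eq_sum_card_fiberwise (f := fun x => u * x ^ 2 + v * x + w)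
          (t := Finset.univ.filter (fun a => a ∈ A)) (by
            intro x hx
            have := (Finset.mem_filter.1 hx).2
            simpa using this)]
        apply Finset.sum_congr rfl
        intro a ha
        have haA : a ∈ A := (Finset.mem_filter.1 ha).2
        simp only [nn]
        congr 1
        ext x
        simp only [Finset.mem_filter, Finset.mem_univ, true_and]
        have e : quadHom u v x = u * x ^ 2 + v * x := rfl
        rw [e]
        constructor
        · rintro ⟨h1, h2⟩
          rw [← h2, add_assoc, add_self_zero, add_zero]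
        · intro h1
          have h2 : u * x ^ 2 + v * x + w = a := by
            rw [h1, add_assoc, add_self_zero, add_zero]
          exact ⟨by rw [h2]; exact haA, h2⟩
      have hshift : ∑ a ∈ Finset.univ.filter (fun a => a ∈ A), nn (a + w) =
          ∑ a ∈ Finset.univ.filter (fun a => a ∈ A), nn a := by
        refine Finset.sum_bij' (fun a _ => a + (u * x0 ^ 2 + v * x0 + w))
          (fun a _ => a + (u * x0 ^ 2 + v * x0 + w)) ?_ ?_ ?_ ?_ ?_
        · intro a ha
          have haA : a ∈ A := (Finset.mem_filter.1 ha).2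
          simpa using A.add_mem haA hx0
        · intro a ha
          have haA : a ∈ A := (Finset.mem_filter.1 ha).2
          simpa using A.add_mem haA hx0
        · intro a _
          rw [add_assoc, add_self_zero, add_zero]
        · intro a _
          rw [add_assoc, add_self_zero, add_zero]
        · intro a _
          have hmem : (u * x0 ^ 2 + v * x0) ∈ H := ⟨x0, rfl⟩
          have e : a + (u * x0 ^ 2 + v * x0 + w) = (a + w) + (u * x0 ^ 2 + v * x0) := by ring
          rw [e]
          by_cases hb : a + w ∈ H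
          · rw [hn1 _ hb, hn1 _ (H.add_mem hb hmem)]
          · rw [hn0 _ hb, hn0 _ (fun h => hb ((H.add_mem_cancel_right hmem).1 h))]
      have h2 : 2 * (Finset.univ.filter (fun x => u * x ^ 2 + v * x + w ∈ A)).card =
          2 * Nat.card A := by
        rw [two_mul]
        nth_rewrite 1 [hX]
        rw [hX, hshift]
        nth_rewrite 2 [← hshift]
        rw [← Finset.sum_add_distrib, Finset.sum_congr rfl (fun a _ => hsum a), Finset.sum_const,
          hAcard, smul_eq_mul, mul_comm]
      omega
    · left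
      push Not at hex
      rw [Finset.card_eq_zero, Finset.filter_eq_empty_iff]
      exact fun x _ => hex x
  · right
    rw [hAcard]
    apply Finset.card_bij (fun x _ => u * x ^ 2)
    · intro x hx
      simpa using hx
    · intro x _ y _ hxy
      exact (sq_bij u hu).1 hxy
    · intro a ha
      obtain ⟨x, hx⟩ := (sq_bij u hu).2 a
      have hx' : u * x ^ 2 = a := hx
      refine ⟨x, ?_, hx'⟩
      simp only [Finset.mem_filter, Finset.mem_univ, true_and] at ha ⊢
      rw [hx']; simpa using ha

end Field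

/-! ### The plane over `K` -/

section Plane

/-- Points: affine points `(x, y)`, the vertical point at infinity, the point at infinity of
slope `m`. -/
inductive Pt (K : Type) : Type
  | aff (x y : K)
  | vert
  | inf (m : K)

/-- Lines: `y = m x + b`, the line at infinity, `x = a`. -/
inductive Ln (K : Type) : Type
  | sl (m b : K)
  | infl
  | ver (a : K)

/-- points as a sum type -/
def ptEquiv (K : Type) : Pt K ≃ (K × K) ⊕ Option K where
  toFun p := match p with
    | Pt.aff x y => Sum.inl (x, y)
    | Pt.vert => Sum.inr none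
    | Pt.inf m => Sum.inr (some m)
  invFun p := match p with
    | Sum.inl (x, y) => Pt.aff x y
    | Sum.inr none => Pt.vert
    | Sum.inr (some m) => Pt.inf m
  left_inv p := by rcases p with ⟨x, y⟩ | _ | m <;> rfl
  right_inv p := by rcases p with ⟨x, y⟩ | _ | m <;> rfl

/-- lines as a sum type -/
def lnEquiv (K : Type) : Ln K ≃ (K × K) ⊕ Option K where
  toFun p := match p with
    | Ln.sl x y => Sum.inl (x, y)
    | Ln.infl => Sum.inr none
    | Ln.ver m => Sum.inr (some m)
  invFun p := match p with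
    | Sum.inl (x, y) => Ln.sl x y
    | Sum.inr none => Ln.infl
    | Sum.inr (some m) => Ln.ver m
  left_inv p := by rcases p with ⟨x, y⟩ | _ | m <;> rfl
  right_inv p := by rcases p with ⟨x, y⟩ | _ | m <;> rfl

instance (K : Type) [Fintype K] : Fintype (Pt K) := Fintype.ofEquiv _ (ptEquiv K).symm
instance (K : Type) [Fintype K] : Fintype (Ln K) := Fintype.ofEquiv _ (lnEquiv K).symm

variable {K : Type} [Field K]

/-- Incidence. -/
def inc : Pt K → Ln K → Prop
  | Pt.aff x y, Ln.sl m b => y = m * x + b
  | Pt.aff x _, Ln.ver a => x = a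
  | Pt.aff _ _, Ln.infl => False
  | Pt.inf m', Ln.sl m _ => m' = m
  | Pt.vert, Ln.sl _ _ => False
  | Pt.inf _, Ln.ver _ => False
  | Pt.vert, Ln.ver _ => True
  | Pt.inf _, Ln.infl => True
  | Pt.vert, Ln.infl => True

instance : Membership (Pt K) (Ln K) := ⟨fun l p => inc p l⟩

theorem mem_iff (p : Pt K) (l : Ln K) : p ∈ l ↔ inc p l := Iff.rfl

theorem ex_line (p₁ p₂ : Pt K) (h : p₁ ≠ p₂) : ∃ l : Ln K, p₁ ∈ l ∧ p₂ ∈ l := by
  rcases p₁ with ⟨x1, y1⟩ | _ | m1 <;> rcases p₂ with ⟨x2, y2⟩ | _ | m2
  · by_cases hx : x1 = x2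
    · subst hx
      exact ⟨Ln.ver x1, rfl, rfl⟩
    · refine ⟨Ln.sl ((y1 - y2) / (x1 - x2)) (y1 - (y1 - y2) / (x1 - x2) * x1), ?_, ?_⟩
      · show y1 = _ * x1 + _
        ring
      · show y2 = _ * x2 + _
        have : x1 - x2 ≠ 0 := sub_ne_zero.2 hx
        field_simp
        ring
  · exact ⟨Ln.ver x1, rfl, trivial⟩
  · refine ⟨Ln.sl m2 (y1 - m2 * x1), ?_, rfl⟩
    show y1 = m2 * x1 + _
    ring
  · exact ⟨Ln.ver x2, trivial, rfl⟩
  · exact absurd rfl h
  · exact ⟨Ln.infl, trivial, trivial⟩
  · refine ⟨Ln.sl m1 (y2 - m1 * x2), rfl, ?_⟩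
    show y2 = m1 * x2 + _
    ring
  · exact ⟨Ln.infl, trivial, trivial⟩
  · exact ⟨Ln.infl, trivial, trivial⟩

theorem ex_point (l₁ l₂ : Ln K) (h : l₁ ≠ l₂) : ∃ p : Pt K, p ∈ l₁ ∧ p ∈ l₂ := by
  rcases l₁ with ⟨m1, b1⟩ | _ | a1 <;> rcases l₂ with ⟨m2, b2⟩ | _ | a2
  · by_cases hm : m1 = m2
    · subst hm
      exact ⟨Pt.inf m1, rfl, rfl⟩
    · have hm' : m1 - m2 ≠ 0 := sub_ne_zero.2 hm
      refine ⟨Pt.aff ((b2 - b1) / (m1 - m2)) (m1 * ((b2 - b1) / (m1 - m2)) + b1), rfl, ?_⟩
      show m1 * ((b2 - b1) / (m1 - m2)) + b1 = m2 * ((b2 - b1) / (m1 - m2)) + b2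
      field_simp
      ring
  · exact ⟨Pt.inf m1, rfl, trivial⟩
  · exact ⟨Pt.aff a2 (m1 * a2 + b1), rfl, rfl⟩
  · exact ⟨Pt.inf m2, trivial, rfl⟩
  · exact absurd rfl h
  · exact ⟨Pt.vert, trivial, trivial⟩
  · exact ⟨Pt.aff a1 (m2 * a1 + b2), rfl, rfl⟩
  · exact ⟨Pt.vert, trivial, trivial⟩
  · exact ⟨Pt.vert, trivial, trivial⟩

theorem uniq {p₁ p₂ : Pt K} {l₁ l₂ : Ln K} (h1 : p₁ ∈ l₁) (h2 : p₂ ∈ l₁) (h3 : p₁ ∈ l₂)
    (h4 : p₂ ∈ l₂) : p₁ = p₂ ∨ l₁ = l₂ := by
  rw [mem_iff] at h1 h2 h3 h4
  rcases p₁ with ⟨x1, y1⟩ | _ | m1 <;> rcases p₂ with ⟨x2, y2⟩ | _ | m2 <;>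
    rcases l₁ with ⟨k1, b1⟩ | _ | a1 <;> rcases l₂ with ⟨k2, b2⟩ | _ | a2 <;>
    simp only [inc] at h1 h2 h3 h4
  all_goals try (left; rfl)
  all_goals try (right; rfl)
  · by_cases hx : x1 = x2
    · left; rw [h1, h2, hx]
    · right
      have h5 : (k1 - k2) * (x1 - x2) = 0 := by linear_combination -h1 + h2 + h3 - h4
      have h6 : k1 = k2 := by
        rcases mul_eq_zero.1 h5 with h | h
        · exact sub_eq_zero.1 h
        · exact absurd (sub_eq_zero.1 h) hx
      have h7 : b1 = b2 := by rw [h6] at h1; linear_combination -h1 + h3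
      rw [h6, h7]
  · left; rw [h1, h2, h3, h4]
  · left; rw [h3, h4, h1, h2]
  · right; rw [← h1, h3]
  · right; rw [← h1, h3]
  · right
    have h6 : k1 = k2 := by rw [← h2, h4]
    have h7 : b1 = b2 := by rw [h6] at h1; linear_combination -h1 + h3
    rw [h6, h7]
  · right; rw [← h2, h4]
  · right
    have h6 : k1 = k2 := by rw [← h1, h3]
    have h7 : b1 = b2 := by rw [h6] at h2; linear_combination -h2 + h4
    rw [h6, h7]
  · left; rw [h1, h2]
  · left; rw [h1, h2]
  · left; rw [h3, h4]

noncomputable instance : ProjectivePlane (Pt K) (Ln K) where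
  exists_point l := by
    rcases l with ⟨m, b⟩ | _ | a
    · exact ⟨Pt.vert, fun h => h⟩
    · exact ⟨Pt.aff 0 0, fun h => h⟩
    · exact ⟨Pt.inf 0, fun h => h⟩
  exists_line p := by
    rcases p with ⟨x, y⟩ | _ | m
    · exact ⟨Ln.infl, fun h => h⟩
    · exact ⟨Ln.sl 0 0, fun h => h⟩
    · exact ⟨Ln.ver 0, fun h => h⟩
  eq_or_eq h1 h2 h3 h4 := uniq h1 h2 h3 h4
  mkPoint h := (ex_point _ _ h).choose
  mkPoint_ax h := (ex_point _ _ h).choose_spec
  mkLine h := (ex_line _ _ h).choose
  mkLine_ax h := (ex_line _ _ h).choose_spec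
  exists_config := by
    refine ⟨Pt.aff 0 0, Pt.vert, Pt.inf 0, Ln.sl 1 0, Ln.infl,
      Ln.ver 1, fun h => h, fun h => ?_, fun h => h, trivial, trivial, fun h => ?_,
      trivial, fun h => h⟩
    · have : (0 : K) = 1 := h
      exact zero_ne_one this
    · have : (0 : K) = 1 := h
      exact zero_ne_one this

omit [Field K] in
theorem card_Pt [Fintype K] : Fintype.card (Pt K) =
    Fintype.card K ^ 2 + Fintype.card K + 1 := by
  rw [Fintype.card_congr (ptEquiv K), Fintype.card_sum, Fintype.card_prod, Fintype.card_option]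
  ring

omit [Field K] in
theorem card_Ln [Fintype K] : Fintype.card (Ln K) =
    Fintype.card K ^ 2 + Fintype.card K + 1 := by
  rw [Fintype.card_congr (lnEquiv K), Fintype.card_sum, Fintype.card_prod, Fintype.card_option]
  ring

theorem order_eq [Fintype K] : ProjectivePlane.order (Pt K) (Ln K) = Fintype.card K := by
  have h1 := ProjectivePlane.card_points (Pt K) (Ln K)
  rw [card_Pt] at h1
  nlinarith

/-! ### Denniston arcs -/

theorem aniso (β : K) (hβ : ∀ z : K, z ^ 2 + z + β ≠ 0) (x y : K)
    (h : x ^ 2 + x * y + β * y ^ 2 = 0) : x = 0 ∧ y = 0 := by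
  by_cases hy : y = 0
  · subst hy
    refine ⟨?_, rfl⟩
    simpa using h
  · exfalso
    apply hβ (x / y)
    have : (x / y) ^ 2 + x / y + β = (x ^ 2 + x * y + β * y ^ 2) / y ^ 2 := by
      field_simp
    rw [this, h, zero_div]

variable [Fintype K] [CharP K 2]

open Classical in
/-- The Denniston arc of the additive subgroup `A`. -/
noncomputable def arc (β : K) (A : AddSubgroup K) : Finset (Pt K) :=
  Finset.univ.filter (fun p => ∃ x y, p = Pt.aff x y ∧ x ^ 2 + x * y + β * y ^ 2 ∈ A)

omit [CharP K 2] in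
theorem mem_arc (β : K) (A : AddSubgroup K) (x y : K) :
    Pt.aff x y ∈ arc β A ↔ x ^ 2 + x * y + β * y ^ 2 ∈ A := by
  classical
  unfold arc
  rw [Finset.mem_filter]
  constructor
  · rintro ⟨-, x', y', h, h'⟩
    injection h with h1 h2
    rw [h1, h2]
    exact h'
  · exact fun h => ⟨Finset.mem_univ _, x, y, rfl, h⟩

omit [CharP K 2] in
theorem exists_of_mem_arc {β : K} {A : AddSubgroup K} {p : Pt K} (h : p ∈ arc β A) :
    ∃ x y, p = Pt.aff x y ∧ x ^ 2 + x * y + β * y ^ 2 ∈ A := by
  classical
  unfold arc at h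
  exact (Finset.mem_filter.1 h).2

open Classical in
theorem arc_lines (β : K) (hβ : ∀ z : K, z ^ 2 + z + β ≠ 0) (A : AddSubgroup K) (l : Ln K) :
    ((arc β A).filter (fun e => e ∈ l)).card = 0 ∨
    ((arc β A).filter (fun e => e ∈ l)).card = Nat.card A := by
  have h2 := two_zero (K := K)
  rcases l with ⟨m, b⟩ | _ | a
  · have hu : 1 + m + β * m ^ 2 ≠ 0 := by
      intro h
      have := aniso β hβ 1 m (by linear_combination h)
      exact one_ne_zero this.1
    have hc := count A (1 + m + β * m ^ 2) b (β * b ^ 2) hu (by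
      by_cases hb : b = 0
      · right; subst hb; simp
      · left
        intro x hx
        have h3 := aniso β hβ x (m * x + b) (by linear_combination hx + (β * m * x * b) * h2)
        apply hb
        have h4 := h3.2
        rw [h3.1] at h4
        simpa using h4)
    have e : ((arc β A).filter (fun e => e ∈ Ln.sl m b)).card =
        (Finset.univ.filter (fun x => (1 + m + β * m ^ 2) * x ^ 2 + b * x + β * b ^ 2 ∈ A)).card := by
      symm
      apply Finset.card_bij (fun x _ => Pt.aff x (m * x + b))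
      · intro x hx
        rw [Finset.mem_filter, mem_arc]
        refine ⟨?_, rfl⟩
        have h3 := (Finset.mem_filter.1 hx).2
        have e : x ^ 2 + x * (m * x + b) + β * (m * x + b) ^ 2 =
            (1 + m + β * m ^ 2) * x ^ 2 + b * x + β * b ^ 2 := by
          linear_combination (β * m * x * b) * h2
        rw [e]; exact h3
      · intro x _ y _ hxy
        injection hxy
      · intro p hp
        obtain ⟨hp1, hp2⟩ := Finset.mem_filter.1 hp
        obtain ⟨x, y, rfl, hxy⟩ := exists_of_mem_arc hp1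
        have hp2' : y = m * x + b := hp2
        refine ⟨x, ?_, by rw [hp2']⟩
        rw [Finset.mem_filter]
        refine ⟨Finset.mem_univ _, ?_⟩
        have e : x ^ 2 + x * (m * x + b) + β * (m * x + b) ^ 2 =
            (1 + m + β * m ^ 2) * x ^ 2 + b * x + β * b ^ 2 := by
          linear_combination (β * m * x * b) * h2
        rw [← e, ← hp2']; exact hxy
    rw [e]; exact hc
  · left
    rw [Finset.card_eq_zero, Finset.filter_eq_empty_iff]
    intro p hp
    obtain ⟨x, y, rfl, -⟩ := exists_of_mem_arc hp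
    exact fun h => h
  · have hu : β ≠ 0 := by
      intro h
      apply hβ 0
      rw [h]; simp
    have hc := count A β a (a ^ 2) hu (by
      by_cases hb : a = 0
      · right; subst hb; simp
      · left
        intro x hx
        have h3 := aniso β hβ a x (by linear_combination hx)
        exact hb h3.1)
    have e : ((arc β A).filter (fun e => e ∈ Ln.ver a)).card =
        (Finset.univ.filter (fun x => β * x ^ 2 + a * x + a ^ 2 ∈ A)).card := by
      symm
      apply Finset.card_bij (fun x _ => Pt.aff a x)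
      · intro x hx
        rw [Finset.mem_filter, mem_arc]
        refine ⟨?_, rfl⟩
        have h3 := (Finset.mem_filter.1 hx).2
        have e : a ^ 2 + a * x + β * x ^ 2 = β * x ^ 2 + a * x + a ^ 2 := by ring
        rw [e]; exact h3
      · intro x _ y _ hxy
        injection hxy
      · intro p hp
        obtain ⟨hp1, hp2⟩ := Finset.mem_filter.1 hp
        obtain ⟨x, y, rfl, hxy⟩ := exists_of_mem_arc hp1
        have hp2' : x = a := hp2
        refine ⟨y, ?_, by rw [hp2']⟩
        rw [Finset.mem_filter]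
        refine ⟨Finset.mem_univ _, ?_⟩
        have e : β * y ^ 2 + a * y + a ^ 2 = a ^ 2 + a * y + β * y ^ 2 := by ring
        rw [e, ← hp2']; exact hxy
    rw [e]; exact hc

/-- The points of the arc together with its external lines. -/
noncomputable def dis (β : K) (A : AddSubgroup K) : Set (Pt K ⊕ Ln K) :=
  {v | (∃ p, v = Sum.inl p ∧ p ∈ arc β A) ∨ (∃ l, v = Sum.inr l ∧ ∀ p ∈ arc β A, p ∉ l)}

theorem dis_isKDIS (β : K) (hβ : ∀ z : K, z ^ 2 + z + β ≠ 0) (A : AddSubgroup K) (k : ℕ)
    (h1 : k ≤ Nat.card A) (h2 : k * Nat.card A ≤ Fintype.card K) :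
    IsKDIS (incGraph (Pt K) (Ln K)) k (dis β A) := by
  classical
  have hApos : 1 ≤ Nat.card A := Nat.card_pos
  constructor
  · rintro u (⟨p, rfl, hp⟩ | ⟨l, rfl, hl⟩) v (⟨p', rfl, hp'⟩ | ⟨l', rfl, hl'⟩) huv
    · exact huv
    · exact hl' p hp huv
    · exact hl p' hp' huv
    · exact huv
  · rintro (p | l) hv
    · have hp : p ∉ arc β A := fun h => hv (Or.inl ⟨p, rfl, h⟩)
      have hext := external (L := Ln K) (arc β A) (Nat.card A) hApos
        ⟨Pt.aff 0 0, (mem_arc β A 0 0).2 (by simp)⟩ (arc_lines β hβ A) p hp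
      rw [order_eq] at hext
      have h3 : k ≤ (Finset.univ.filter (fun l : Ln K => p ∈ l ∧
          ((arc β A).filter (fun e => e ∈ l)).card = 0)).card := by
        have h4 : k * Nat.card A ≤ (Finset.univ.filter (fun l : Ln K => p ∈ l ∧
          ((arc β A).filter (fun e => e ∈ l)).card = 0)).card * Nat.card A := by rw [hext]; exact h2
        exact Nat.le_of_mul_le_mul_right h4 hApos
      refine h3.trans ?_
      rw [← Finset.card_image_of_injective _ (Sum.inr_injective : Function.Injective
        (Sum.inr : Ln K → Pt K ⊕ Ln K)), ← Set.ncard_coe_finset]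
      apply Set.ncard_le_ncard _ (Set.toFinite _)
      intro v hv
      rw [Finset.mem_coe, Finset.mem_image] at hv
      obtain ⟨l, hl, rfl⟩ := hv
      obtain ⟨-, hl1, hl2⟩ := Finset.mem_filter.1 hl
      refine ⟨Or.inr ⟨l, rfl, fun e he hel => ?_⟩, hl1⟩
      rw [Finset.card_eq_zero, Finset.filter_eq_empty_iff] at hl2
      exact hl2 he hel
    · have hl : ∃ p ∈ arc β A, p ∈ l := by
        by_contra hcon
        push Not at hcon
        exact hv (Or.inr ⟨l, rfl, hcon⟩)
      obtain ⟨p, hp1, hp2⟩ := hl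
      have h3 : ((arc β A).filter (fun e => e ∈ l)).card = Nat.card A := by
        refine (arc_lines β hβ A l).resolve_left ?_
        intro h
        rw [Finset.card_eq_zero, Finset.filter_eq_empty_iff] at h
        exact h hp1 hp2
      refine (h1.trans h3.ge).trans ?_
      rw [← Finset.card_image_of_injective _ (Sum.inl_injective : Function.Injective
        (Sum.inl : Pt K → Pt K ⊕ Ln K)), ← Set.ncard_coe_finset]
      apply Set.ncard_le_ncard _ (Set.toFinite _)
      intro v hv
      rw [Finset.mem_coe, Finset.mem_image] at hv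
      obtain ⟨p, hp, rfl⟩ := hv
      obtain ⟨hp1, hp2⟩ := Finset.mem_filter.1 hp
      exact ⟨Or.inl ⟨p, rfl, hp1⟩, hp2⟩

theorem dis_inj (β : K) : Function.Injective (dis β : AddSubgroup K → Set (Pt K ⊕ Ln K)) := by
  intro A A' h
  have key : ∀ A A' : AddSubgroup K, dis β A = dis β A' → ∀ a ∈ A, a ∈ A' := by
    intro A A' h a ha
    obtain ⟨x, hx⟩ := (sq_bij (1 : K) one_ne_zero).2 a
    have hx' : x ^ 2 = a := by
      have : (1 : K) * x ^ 2 = a := hx
      rwa [one_mul] at this
    have h1 : (Sum.inl (Pt.aff x 0) : Pt K ⊕ Ln K) ∈ dis β A :=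
      Or.inl ⟨_, rfl, (mem_arc β A x 0).2 (by simpa [hx'] using ha)⟩
    rw [h] at h1
    rcases h1 with ⟨p, hp, hp'⟩ | ⟨l, hl, -⟩
    · have hp2 := Sum.inl_injective hp
      rw [← hp2, mem_arc] at hp'
      simpa [hx'] using hp'
    · exact absurd hl Sum.inl_ne_inr
  ext a
  exact ⟨key A A' h a, key A' A h.symm a⟩

end Plane

/-! ### Many subgroups -/

section Many

theorem exists_beta (K : Type) [Field K] [Fintype K] [CharP K 2] :
    ∃ β : K, ∀ z : K, z ^ 2 + z + β ≠ 0 := by
  have h1 : ¬ Function.Injective (fun z : K => z ^ 2 + z) := by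
    intro h
    have h2 : (fun z : K => z ^ 2 + z) 0 = (fun z : K => z ^ 2 + z) 1 := by
      simp only [one_pow]
      rw [add_self_zero]; simp
    exact zero_ne_one (h h2)
  have h2 : ¬ Function.Surjective (fun z : K => z ^ 2 + z) := fun h =>
    h1 (Finite.injective_iff_surjective.2 h)
  unfold Function.Surjective at h2
  push Not at h2
  obtain ⟨β, hβ⟩ := h2
  refine ⟨β, fun z hz => hβ z ?_⟩
  have h4 : z ^ 2 + z = z ^ 2 + z + (β + β) := by rw [add_self_zero, add_zero]
  show z ^ 2 + z = β
  rw [h4, ← add_assoc, hz, zero_add]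

variable {K : Type} [AddCommGroup K] {j m : ℕ}

/-- The subgroup of `K` that is the graph of a matrix. -/
def sub (e : K ≃+ (Fin j → ZMod 2) × (Fin m → ZMod 2)) (M : Matrix (Fin m) (Fin j) (ZMod 2)) :
    AddSubgroup K where
  carrier := {x | (e x).2 = M.mulVec (e x).1}
  add_mem' := by
    intro a b ha hb
    have ha' : (e a).2 = M.mulVec (e a).1 := ha
    have hb' : (e b).2 = M.mulVec (e b).1 := hb
    show (e (a + b)).2 = M.mulVec (e (a + b)).1
    rw [map_add, Prod.snd_add, Prod.fst_add, Matrix.mulVec_add, ha', hb']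
  zero_mem' := by
    show (e 0).2 = M.mulVec (e 0).1
    rw [map_zero]; simp
  neg_mem' := by
    intro a ha
    have ha' : (e a).2 = M.mulVec (e a).1 := ha
    show (e (-a)).2 = M.mulVec (e (-a)).1
    rw [map_neg, Prod.snd_neg, Prod.fst_neg, Matrix.mulVec_neg, ha']

theorem mem_sub (e : K ≃+ (Fin j → ZMod 2) × (Fin m → ZMod 2))
    (M : Matrix (Fin m) (Fin j) (ZMod 2)) (x : K) :
    x ∈ sub e M ↔ (e x).2 = M.mulVec (e x).1 := Iff.rfl

theorem card_sub (e : K ≃+ (Fin j → ZMod 2) × (Fin m → ZMod 2))
    (M : Matrix (Fin m) (Fin j) (ZMod 2)) : Nat.card (sub e M) = 2 ^ j := by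
  have hb : Function.Bijective (fun x : sub e M => (e x.1).1) := by
    constructor
    · rintro ⟨x, hx⟩ ⟨y, hy⟩ hxy
      apply Subtype.ext
      apply e.injective
      have hxy' : (e x).1 = (e y).1 := hxy
      apply Prod.ext hxy'
      rw [(mem_sub e M x).1 hx, (mem_sub e M y).1 hy, hxy']
    · intro v
      refine ⟨⟨e.symm (v, M.mulVec v), ?_⟩, ?_⟩
      · rw [mem_sub]; simp
      · simp
  rw [Nat.card_congr (Equiv.ofBijective _ hb)]
  simp

theorem sub_inj (e : K ≃+ (Fin j → ZMod 2) × (Fin m → ZMod 2)) : Function.Injective (sub e) := by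
  intro M N h
  apply Matrix.ext_of_mulVec_single
  intro i
  have h1 : e.symm (Pi.single i 1, M.mulVec (Pi.single i 1)) ∈ sub e M := by
    rw [mem_sub]; simp
  rw [h, mem_sub] at h1
  simpa using h1

end Many

/-- **Full (positive) answer to Q1 of MP_a51b5f_co.**  For every `k ≥ 1` the number of `k`-DISes
of incidence graphs of finite projective planes is not bounded by a polynomial in the number `n`
of vertices. -/
theorem result (k : ℕ) (_hk : 1 ≤ k) (C c : ℝ) :
    ∃ (P L : Type) (_ : Fintype P) (_ : Fintype L) (_ : Membership P L) (_ : ProjectivePlane P L),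
      C * (Fintype.card (P ⊕ L) : ℝ) ^ c <
        ({S : Set (P ⊕ L) | IsKDIS (incGraph P L) k S}.ncard : ℝ) := by
  obtain ⟨c', hc'⟩ : ∃ c' : ℕ, c ≤ c' := exists_nat_ge c
  obtain ⟨C', hC'⟩ : ∃ C' : ℕ, C ≤ C' := exists_nat_ge C
  let j := 2 * c' + 1 + k
  let m := (2 * j + 2) * c' + C' + k + 1
  let h := j + m
  have hh : h ≠ 0 := by simp only [h, j]; omega
  let K := GaloisField 2 h
  let _ : Fintype K := Fintype.ofFinite K
  have hcard : Fintype.card K = 2 ^ h := by
    rw [← Nat.card_eq_fintype_card]; exact GaloisField.card 2 h hh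
  obtain ⟨β, hβ⟩ := exists_beta K
  have hfin : Module.finrank (ZMod 2) K =
      Module.finrank (ZMod 2) ((Fin j → ZMod 2) × (Fin m → ZMod 2)) := by
    rw [GaloisField.finrank 2 hh]; simp [h]
  let e : K ≃+ (Fin j → ZMod 2) × (Fin m → ZMod 2) :=
    (LinearEquiv.ofFinrankEq K _ hfin).toAddEquiv
  refine ⟨Pt K, Ln K, inferInstance, inferInstance, inferInstance, inferInstance, ?_⟩
  -- lower bound for the number of sets
  have h1 : (2 ^ j) ^ m ≤ {S : Set (Pt K ⊕ Ln K) | IsKDIS (incGraph (Pt K) (Ln K)) k S}.ncard := by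
    have h2 : (Set.range (fun M : Matrix (Fin m) (Fin j) (ZMod 2) => dis β (sub e M))) ⊆
        {S : Set (Pt K ⊕ Ln K) | IsKDIS (incGraph (Pt K) (Ln K)) k S} := by
      rintro S ⟨M, rfl⟩
      apply dis_isKDIS β hβ
      · rw [card_sub]
        calc k ≤ j := by simp only [j]; omega
          _ ≤ 2 ^ j := Nat.lt_two_pow_self.le
      · rw [card_sub, hcard]
        have h3 : k ≤ 2 ^ m := by
          calc k ≤ m := by simp only [m]; omega
            _ ≤ 2 ^ m := Nat.lt_two_pow_self.le
        calc k * 2 ^ j ≤ 2 ^ m * 2 ^ j := Nat.mul_le_mul_right _ h3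
          _ = 2 ^ h := by rw [← pow_add]; congr 1; simp only [h]; omega
    have h3 := Set.ncard_le_ncard h2 (Set.toFinite _)
    have h4 : (Set.range (fun M : Matrix (Fin m) (Fin j) (ZMod 2) => dis β (sub e M))).ncard =
        (2 ^ j) ^ m := by
      have hinj : Function.Injective
          (fun M : Matrix (Fin m) (Fin j) (ZMod 2) => dis β (sub e M)) :=
        (dis_inj β).comp (sub_inj e)
      rw [← Set.image_univ, Set.ncard_image_of_injective _ hinj,
        Set.ncard_univ, Nat.card_eq_fintype_card]
      have : Fintype.card (Matrix (Fin m) (Fin j) (ZMod 2)) =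
          Fintype.card (Fin m → Fin j → ZMod 2) := rfl
      rw [this]; simp
    omega
  -- the number of vertices
  have h2 : Fintype.card (Pt K ⊕ Ln K) ≤ 2 ^ (2 * h + 2) := by
    rw [Fintype.card_sum, card_Pt, card_Ln, hcard]
    have h3 : 1 ≤ 2 ^ h := Nat.one_le_two_pow
    have h4 : 2 ^ (2 * h + 2) = 4 * (2 ^ h) ^ 2 := by
      rw [pow_add, pow_mul, mul_comm, ← pow_mul, ← pow_mul, mul_comm h 2]; norm_num
    have h5 : 2 ≤ 2 ^ h := by
      calc 2 = 2 ^ 1 := rfl
        _ ≤ 2 ^ h := Nat.pow_le_pow_right (by norm_num) (by omega)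
    rw [h4]
    nlinarith
  have h3 : 1 ≤ Fintype.card (Pt K ⊕ Ln K) := by
    rw [Fintype.card_sum, card_Pt]; omega
  have hn1 : (1 : ℝ) ≤ (Fintype.card (Pt K ⊕ Ln K) : ℝ) := by exact_mod_cast h3
  have h4 : (Fintype.card (Pt K ⊕ Ln K) : ℝ) ^ c ≤ (2 : ℝ) ^ ((2 * h + 2) * c') := by
    calc (Fintype.card (Pt K ⊕ Ln K) : ℝ) ^ c ≤ (Fintype.card (Pt K ⊕ Ln K) : ℝ) ^ (c' : ℝ) :=
          Real.rpow_le_rpow_of_exponent_le hn1 hc'
      _ = (Fintype.card (Pt K ⊕ Ln K) : ℝ) ^ c' := Real.rpow_natCast _ _
      _ ≤ ((2 : ℝ) ^ (2 * h + 2)) ^ c' := by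
          apply pow_le_pow_left₀ (by positivity)
          exact_mod_cast h2
      _ = (2 : ℝ) ^ ((2 * h + 2) * c') := by rw [← pow_mul]
  have h5 : C' * 2 ^ ((2 * h + 2) * c') < (2 ^ j) ^ m := by
    have h6 : C' < 2 ^ C' := Nat.lt_two_pow_self
    have h7 : C' * 2 ^ ((2 * h + 2) * c') < 2 ^ C' * 2 ^ ((2 * h + 2) * c') :=
      Nat.mul_lt_mul_of_pos_right h6 (by positivity)
    refine lt_of_lt_of_le h7 ?_
    rw [← pow_add, ← pow_mul]
    apply Nat.pow_le_pow_right (by norm_num)
    have h8 : (2 * h + 2) * c' = 2 * m * c' + (2 * j + 2) * c' := by simp only [h]; ring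
    have h9 : j * m = 2 * m * c' + (1 + k) * m := by simp only [j]; ring
    have h10 : m ≤ (1 + k) * m := Nat.le_mul_of_pos_left m (by omega)
    have h11 : C' + (2 * j + 2) * c' ≤ m := by simp only [m]; omega
    omega
  have h6 : (C' : ℝ) * 2 ^ ((2 * h + 2) * c') < ((2 ^ j) ^ m : ℕ) := by exact_mod_cast h5
  calc C * (Fintype.card (Pt K ⊕ Ln K) : ℝ) ^ c
      ≤ C' * (Fintype.card (Pt K ⊕ Ln K) : ℝ) ^ c :=
        mul_le_mul_of_nonneg_right hC' (Real.rpow_nonneg (by positivity) _)
    _ ≤ C' * 2 ^ ((2 * h + 2) * c') := mul_le_mul_of_nonneg_left h4 (Nat.cast_nonneg _)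
    _ < ((2 ^ j) ^ m : ℕ) := h6
    _ ≤ _ := by exact_mod_cast h1

end Pool.Agent.Results.MP_a51b5f_co.ManyKDIS
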